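import Pool.Agent.helper56.NZ.Spec
import Pool.Agent.helper51.HY.BRH

/-! # Project nz: (MP_af9036_an): module BNX (the next inverse branch when there is no obstacle) -/

set_option autoImplicit false

open Complex Metric Set Filter Topology MeasureTheory Pool.Agent.helper98.ILF Pool.Agent.helper16.Multibrot
open HY (UD T S hd UN RM VV SG Orb fz)

noncomputable section

namespace NZ

theorem BNX (hLR : MPS.LR_stmt) (hK : V3.KO0_stmt) : BNX_stmt := by
  intro n c V φ ψ b hS y H' hy hH' hval hob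
  obtain ⟨χ, hχ1, hχ2, hχ3⟩ := HY.BRH_inv hK hS.rm
  have h0 : (0 : ℂ) ∈ UD := mem_ball_self one_pos
  have hop : IsOpen UD := isOpen_ball
  have hVimg : ∀ x ∈ UD, φ x ∈ V := by
    intro x hx
    rw [← hS.rm.img]
    exact mem_image_of_mem _ hx
  have hFne : ∀ v ∈ UD, φ (H' v) - c ≠ 0 := by
    intro v hv h
    have h1 : φ (H' v) = φ b := by rw [hS.hbc]; exact sub_eq_zero.1 h
    exact hob v hv (hS.rm.inj (hH'.map hv) hS.hb h1)
  have hFd : DifferentiableOn ℂ (fun v => φ (H' v) - c) UD :=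
    (hS.rm.dif.comp hH'.dif hH'.map).sub_const c
  have hn1 : 1 ≤ n := le_trans (by norm_num) hS.hn
  have hv0 : (φ y) ^ n = φ (H' 0) - c := by
    rw [hval]
    unfold fz
    ring
  obtain ⟨h, hhd, hh0, hhn⟩ := hLR n UD (fun v => φ (H' v) - c) 0 (φ y) hn1 hop
    (convex_ball _ _) hFd hFne h0 hv0
  have hfh : ∀ v ∈ UD, fz n c (h v) = φ (H' v) := by
    intro v hv
    unfold fz
    rw [hhn v hv]
    ring
  have hhV : ∀ v ∈ UD, h v ∈ V := by
    intro v hv
    apply hS.sub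
    show fz n c (h v) ∈ V
    rw [hfh v hv]
    exact hVimg _ (hH'.map hv)
  refine ⟨fun x => χ (h x), ⟨hχ3.comp hhd hhV, ?_, fun v hv => (hχ1 _ (hhV v hv)).1⟩, ?_, ?_⟩
  · intro x hx x' hx' hxx
    have hxx' : χ (h x) = χ (h x') := hxx
    have e2 : h x = h x' := by
      rw [← (hχ1 _ (hhV _ hx)).2, ← (hχ1 _ (hhV _ hx')).2, hxx']
    have e1 : φ (H' x) = φ (H' x') := by
      rw [← hfh x hx, ← hfh x' hx', e2]
    exact hH'.inj hx hx' (hS.rm.inj (hH'.map hx) (hH'.map hx') e1)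
  · show χ (h 0) = y
    rw [hh0]
    exact hχ2 y hy
  · intro x hx
    show φ (H' x) = fz n c (φ (χ (h x)))
    rw [(hχ1 _ (hhV _ hx)).2, hfh _ hx]

end NZ
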