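import Pool.Agent.helper70.NZ.SpecB

/-!
# MP_baa4d7_al, THEOREM NZ, row YBE: the sets `GN` for `N` and `N ⊓ nz E`

Port of `helper30/NE/YBE.lean` (THEOREM NE) to the class `KY`; the claim is that of `helper96/ZB/ZQU.lean`.
-/

set_option autoImplicit false

namespace Pool.Agent.ND.NY.E

open Pool.Agent.helper58.DC Pool.Agent.DI Pool.Agent.GR Pool.Agent.OB Pool.Agent.DR Pool.Agent.FI Pool.Agent.FI3 Pool.Agent.FI4 Pool.Agent.FI4I Pool.Agent.LE Pool.Agent.L5 Pool.Agent.NAB Pool.Agent.NE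
open Pool.Agent.ZB (Pm Om KZ EQ BQ lQ MZc BDK)

theorem YBE_cj {G : Type} [Group G] (k : G) (P : Subgroup G) : cjS k⁻¹ (cjS k P) = P := by
  ext y
  rw [mem_cjS, mem_cjS]
  have e : k⁻¹ * (k⁻¹⁻¹ * y * k⁻¹) * k = y := by group
  rw [e]

theorem YBE_nz {G : Type} [Group G] (k : G) (P : Subgroup G) (h : cjS k P = P) : k ∈ nz P := by
  rw [Subgroup.mem_normalizer_iff]
  intro y
  have h1 : k * y * k⁻¹ ∈ cjS k P ↔ y ∈ P := by
    rw [mem_cjS]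
    have e : k⁻¹ * (k * y * k⁻¹) * k = y := by group
    rw [e]
  rw [h] at h1
  exact h1.symm

theorem YBE_card {G : Type} [Group G] (l : G) (Q : Subgroup G) : Nat.card (cjS l Q) = Nat.card Q :=
  Subgroup.card_map_of_injective (MulAut.conj l).injective

/-- the defect groups of the blocks in `BQ` are conjugate to `D` -/
theorem YBE_claim (hZHE : Pool.Agent.ZB.ZHE_stmt) (hZQD : Pool.Agent.ZB.ZQD_stmt) (hZE1 : Pool.Agent.ZB.ZE1_stmt) (hZE2 : Pool.Agent.ZB.ZE2_stmt)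
    {p : ℕ} {κ : Pm} {M : Ideal (integralClosure ℤ ℂ)} (hM : Setup p M) (hp : p.Prime) {G : Type} [Group G] [Finite G] {L E : Subgroup G} {ψ : G → ℂ} (hψ : ψ ∈ IrrOn L)
    {D : Subgroup G} {x : G} (hD : DefL p M L ψ D x) (hKD : KZ p κ D) {η' : G → ℂ} {Q : Subgroup G} {y : G} (hη' : η' ∈ IrrOn (L ⊓ nz E)) (hSB : SB M L η' ψ)
    (hQ : DefL p M (L ⊓ nz E) η' Q y) (hKQ : KZ p κ Q) (hE : EQ p κ.s Q = E) : ∃ l ∈ L, cjS l Q = D := by
  have hHL : L ⊓ nz E ≤ L := inf_le_left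
  obtain ⟨-, -, -, q1, q2, q3, q4⟩ := hZE1 p hp κ G Q hKQ
  obtain ⟨-, -, -, d1, d2, d3, d4⟩ := hZE1 p hp κ G D hKD
  rw [hE] at q1 q2 q3 q4
  have hcz : L ⊓ cz Q ≤ L ⊓ nz E := inf_le_inf_left L (q2.trans q3)
  have hcard : Nat.card Q = Nat.card D := by
    refine hZQD p M hM G L (L ⊓ nz E) hHL ψ hψ D x hD η' hη' hSB Q y hQ hcz ?_
    intro l hl hle
    obtain ⟨-, -, e3⟩ := hZE2 p hp κ G Q hKQ
    obtain ⟨e1, -, -⟩ := hZE2 p hp κ G D hKD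
    have h1 : EQ p κ.s D = cjS l E := by
      rw [← e1 (cjS l Q) (e3 l).1 hle, (e3 l).2, hE]
    refine le_inf ?_ ?_
    · intro g hg
      rw [mem_cjS, inv_inv] at hg
      have h2 : l * g * l⁻¹ ∈ L := (hD.le hg).1
      have h3 := L.mul_mem (L.mul_mem (L.inv_mem hl) h2) hl
      have h4 : l⁻¹ * (l * g * l⁻¹) * l = g := by group
      rwa [h4] at h3
    · refine le_trans ?_ q3
      intro g hg
      rw [mem_cjS, inv_inv] at hg
      have h2 : l * g * l⁻¹ ∈ cz (EQ p κ.s D) := d1 hg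
      rw [h1, Subgroup.mem_centralizer_iff] at h2
      rw [Subgroup.mem_centralizer_iff]
      intro b hb
      have h3 : l * b * l⁻¹ ∈ cjS l E := by
        rw [mem_cjS]
        have h4 : l⁻¹ * (l * b * l⁻¹) * l = b := by group
        rwa [h4]
      have h5 := h2 _ h3
      have h6 : l⁻¹ * ((l * b * l⁻¹) * (l * g * l⁻¹)) * l = l⁻¹ * ((l * g * l⁻¹) * (l * b * l⁻¹)) * l := by rw [h5]
      have h7 : l⁻¹ * ((l * b * l⁻¹) * (l * g * l⁻¹)) * l = b * g := by group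
      have h8 : l⁻¹ * ((l * g * l⁻¹) * (l * b * l⁻¹)) * l = g * b := by group
      rw [h7, h8] at h6
      exact h6
  obtain ⟨l, hl, hle, -⟩ := hZHE p M hM G L (L ⊓ nz E) hHL ψ hψ D x hD η' hη' hSB Q y hQ hcz
  refine ⟨l, hl, Subgroup.eq_of_le_of_card_ge hle ?_⟩
  rw [YBE_card, hcard]

theorem YBE (hYE1 : YE1_stmt) (hZHE : Pool.Agent.ZB.ZHE_stmt) (hZQD : Pool.Agent.ZB.ZQD_stmt) (hZE1 : Pool.Agent.ZB.ZE1_stmt) (hZE2 : Pool.Agent.ZB.ZE2_stmt) (hZQU : Pool.Agent.ZB.ZQU_stmt)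
    (hNDG : NDG_stmt) (hNUD : NUD_stmt) (hNUF : NUF_stmt) (hNUB : NUB_stmt) (hZNU : ZNU_stmt) (hZGP : ZGP_stmt) (hNEG : NEG_stmt) : YBE_stmt := by
  intro p e m t M hS G _ _ N χ Z z x hZ
  have hp : p.Prime := hS.1
  have hem := hZ.em
  have huc := hZ.uc
  obtain ⟨g1, g2, ⟨g3, g3'⟩, ⟨g4, g4'⟩, ⟨g5a, g5b, g5c, g5d, g5e⟩, g6, g7, g8⟩ := hZGP p e m.a hp (by omega) G z huc.pe huc.od
  have hZz := hZ.zz
  rw [hZz] at g2 g3' g4' g5b g5c
  obtain ⟨D, y₀, d1, d2, d3, d4⟩ := (hNUD p e m M hS G N χ hZ.ch z x huc).2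
  obtain ⟨hKD, -, -, -, -, y6, -⟩ := (hYE1 p hp m G D).1 e d4
  have hED : Eg p e z = EQ p m.s D := y6 z d2 huc.od
  have h2 : GN p e m M N χ (N ⊓ nz (Eg p e z)) Z = BQ p m M N (N ⊓ nz (Eg p e z)) (Eg p e z) χ := by
    ext η
    constructor
    · rintro ⟨a1, a2, z', x', a3, a4⟩
      obtain ⟨D', y', e1, e2, e3, e4⟩ := (hNUD p e m M hS G (N ⊓ nz (Eg p e z)) η a1 z' x' a3).2
      obtain ⟨hKD', -, -, -, -, w6, -⟩ := (hYE1 p hp m G D').1 e e4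
      refine ⟨a1, a2, D', y', e1, hKD', ?_⟩
      rw [← w6 z' e2 a3.od]
      exact g4' z' a3.pe a3.od a4
    · rintro ⟨a1, a2, Q, y, a3, a4, a5⟩
      obtain ⟨l, hl, hlQ⟩ := YBE_claim hZHE hZQD hZE1 hZE2 hS hp hZ.ch d1 hKD a1 a2 a3 a4 a5
      have hKYQ : KY p e m Q := by
        have h3 := ((hYE1 p hp m G D).1 e d4).2.2.2.2.1 l⁻¹
        rwa [← hlQ, YBE_cj] at h3
      obtain ⟨-, -, -, -, -, u6, z', f1, f2, f3⟩ := (hYE1 p hp m G Q).1 e hKYQ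
      have hEz' : Eg p e z' = Eg p e z := (u6 z' f1 f3).trans a5
      have hzH : z' ∈ N ⊓ nz (Eg p e z) := (a3.le f1).1
      have hco : z' * y = y * z' := by
        have h3 : z' ∈ Subgroup.centralizer ({y} : Set G) := (a3.le f1).2
        rw [Subgroup.mem_centralizer_iff] at h3
        exact (h3 y rfl).symm
      have hpe : PEl p z' := ⟨e, by rw [← f3]; exact pow_orderOf_eq_one z'⟩
      have a3' : Ucl p e m M (N ⊓ nz (Eg p e z)) η z' y :=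
        ⟨hpe, a3.reg, hco, hzH, a3.mem, f3, hNDG p M hS G (N ⊓ nz (Eg p e z)) η a1 Q y a3 z' f1 f2, Q, y, a3, hKYQ⟩
      have b1 := hNUF p e m M hS G N (Eg p e z) η a1 z' y a3' hEz' χ a2 ⟨D, y₀, d1, d4⟩
      obtain ⟨k, hk, b2⟩ := (hZNU p e m M hS hem G N χ hZ.ch z x huc).1 z' y b1
      rw [hZz] at b2
      have b3 := (hZGP p e m.a hp (by omega) G z' a3'.pe a3'.od).1 k⁻¹
      rw [b2, YBE_cj] at b3
      have b4 := (hNEG p e hp G z').1 k⁻¹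
      have hN : k⁻¹ ∈ N := N.inv_mem hk
      have b5 := (hNUB p e m M hS G N χ z' y b1).2.2 k⁻¹ hN
      have b6 := g4' _ b5.pe b5.od b3
      rw [b6, hEz'] at b4
      have b7 : k⁻¹ ∈ nz (Eg p e z) := YBE_nz _ _ b4.symm
      have b8 := (hNUB p e m M hS G (N ⊓ nz (Eg p e z)) η z' y a3').2.2 k⁻¹ (Subgroup.mem_inf.mpr ⟨hN, b7⟩)
      exact ⟨a1, a2, _, _, b8, b3⟩
  refine ⟨?_, h2, ?_, g2 N huc.zm, inf_le_inf_left N g5b, inf_le_inf_left N g5c, g5c, g3'⟩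
  · ext ψ
    constructor
    · rintro ⟨a1, a2, -⟩
      exact ⟨a1, a2⟩
    · rintro ⟨a1, a2⟩
      exact ⟨a1, a2, z, x, (hNUB p e m M hS G N χ z x huc).1 ψ a2.symm, hZz⟩
  · intro η hη η' hη'
    rw [h2] at hη hη'
    have c1 := (hZQU p m M hS G N (Eg p e z) χ hZ.ch D y₀ d1 hKD η hη).1
    rw [c1] at hη'
    exact hη'.2.symm

end Pool.Agent.ND.NY.E
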